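import Mathlib

/-! # Finite dimensional duality lemmas (for the averaging pieces of the Sobolev gap) -/

open Filter Topology Set MeasureTheory

namespace Pool.Agent.Helper33.SG

variable {V : Type*} [AddCommGroup V] [Module ℂ V] {E : Type*} [NormedAddCommGroup E]
  [NormedSpace ℂ E]

/-- coordinates in a basis of a finite dimensional subspace are bounded by the norm of `j` -/
theorem coord_bound (j : V →ₗ[ℂ] E) (hj : Function.Injective j) (W : Submodule ℂ V) {n : ℕ}
    (b : Module.Basis (Fin n) ℂ W) :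
    ∃ C : ℝ, 0 ≤ C ∧ ∀ (w : W), ∑ i, ‖b.repr w i‖ ≤ C * ‖j w‖ := by
  let L : (Fin n → ℂ) →ₗ[ℂ] E := (j ∘ₗ W.subtype) ∘ₗ (b.equivFun.symm : (Fin n → ℂ) →ₗ[ℂ] W)
  have hL : LinearMap.ker L = ⊥ := by
    rw [LinearMap.ker_eq_bot]
    exact (hj.comp (Submodule.injective_subtype W)).comp b.equivFun.symm.injective
  obtain ⟨K, hK, hanti⟩ := L.exists_antilipschitzWith hL
  refine ⟨n * K, by positivity, fun w => ?_⟩
  have h1 : L (b.equivFun w) = j w := by
    simp [L]
  have h2 : ‖b.equivFun w‖ ≤ K * ‖j w‖ := by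
    have h3 := hanti.le_mul_dist (b.equivFun w) 0
    rwa [map_zero, dist_zero_right, dist_zero_right, h1] at h3
  calc ∑ i, ‖b.repr w i‖ ≤ ∑ _i : Fin n, ‖b.equivFun w‖ :=
        Finset.sum_le_sum fun i _ => norm_le_pi_norm (b.equivFun w) i
    _ = n * ‖b.equivFun w‖ := by simp
    _ ≤ n * (K * ‖j w‖) := by gcongr
    _ = n * K * ‖j w‖ := by ring

theorem functional_bound (j : V →ₗ[ℂ] E) (hj : Function.Injective j) (W : Submodule ℂ V)
    [FiniteDimensional ℂ W] (l : V →ₗ[ℂ] ℂ) :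
    ∃ C : ℝ, 0 ≤ C ∧ ∀ w ∈ W, ‖l w‖ ≤ C * ‖j w‖ := by
  obtain ⟨C, hC, h⟩ := coord_bound j hj W (Module.finBasis ℂ W)
  set b := Module.finBasis ℂ W with hb
  refine ⟨(∑ i, ‖l (b i)‖) * C, by positivity, fun w hw => ?_⟩
  have h1 : l w = ∑ i, b.repr ⟨w, hw⟩ i * l (b i) := by
    have h2 := b.sum_repr ⟨w, hw⟩
    have h3 := congrArg (fun x : W => l x) h2
    simp only [Submodule.coe_sum, Submodule.coe_smul, map_sum, map_smul, smul_eq_mul] at h3
    exact h3.symm
  have hnn : ∀ i, ‖l (b i)‖ ≤ ∑ i, ‖l (b i)‖ := fun i =>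
    Finset.single_le_sum (f := fun i => ‖l (b i : V)‖) (fun i _ => norm_nonneg _)
      (Finset.mem_univ i)
  calc ‖l w‖ ≤ ∑ i, ‖b.repr ⟨w, hw⟩ i‖ * ‖l (b i)‖ := by
        rw [h1]
        refine (norm_sum_le _ _).trans (Finset.sum_le_sum fun i _ => ?_)
        rw [norm_mul]
    _ ≤ ∑ i, ‖b.repr ⟨w, hw⟩ i‖ * ∑ i, ‖l (b i)‖ :=
        Finset.sum_le_sum fun i _ => mul_le_mul_of_nonneg_left (hnn i) (norm_nonneg _)
    _ = (∑ i, ‖l (b i)‖) * ∑ i, ‖b.repr ⟨w, hw⟩ i‖ := by rw [← Finset.sum_mul, mul_comm]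
    _ ≤ (∑ i, ‖l (b i)‖) * (C * ‖j w‖) := by
        refine mul_le_mul_of_nonneg_left (h ⟨w, hw⟩) (Finset.sum_nonneg fun i _ => norm_nonneg _)
    _ = _ := by ring

/-- an operator close to the identity on a finite dimensional stable subspace is onto there -/
theorem onto_of_close (j : V →ₗ[ℂ] E) (hj : Function.Injective j) (W : Submodule ℂ V)
    [FiniteDimensional ℂ W] :
    ∃ η : ℝ, 0 < η ∧ ∀ T : V →ₗ[ℂ] V, (∀ w ∈ W, T w ∈ W) →
      (∀ i, ‖j (T (Module.finBasis ℂ W i)) - j (Module.finBasis ℂ W i)‖ ≤ η) →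
      ∀ h ∈ W, ∃ h' ∈ W, T h' = h := by
  obtain ⟨C, hC, hb⟩ := coord_bound j hj W (Module.finBasis ℂ W)
  set b := Module.finBasis ℂ W with hbdef
  refine ⟨1 / (2 * (C + 1)), by positivity, fun T hT hclose h hh => ?_⟩
  let TW : W →ₗ[ℂ] W := T.restrict hT
  have hinj : Function.Injective TW := by
    rw [← LinearMap.ker_eq_bot, LinearMap.ker_eq_bot']
    intro w hw
    have h0 : T w = 0 := congrArg Subtype.val hw
    have h1 : j (T w) - j w = ∑ i, b.repr w i • (j (T (b i)) - j (b i)) := by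
      have h2 := b.sum_repr w
      have h3 : (w : V) = ∑ i, b.repr w i • (b i : V) := by
        have := congrArg (fun x : W => (x : V)) h2
        simp only [Submodule.coe_sum, Submodule.coe_smul] at this
        exact this.symm
      conv_lhs => rw [h3]
      simp only [map_sum, map_smul, smul_sub, Finset.sum_sub_distrib]
    have h4 : ‖j w‖ ≤ C * ‖j w‖ * (1 / (2 * (C + 1))) := by
      calc ‖j w‖ = ‖j (T w) - j w‖ := by rw [h0, map_zero, zero_sub, norm_neg]
        _ ≤ ∑ i, ‖b.repr w i‖ * (1 / (2 * (C + 1))) := by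
            rw [h1]
            refine (norm_sum_le _ _).trans (Finset.sum_le_sum fun i _ => ?_)
            rw [norm_smul]
            exact mul_le_mul_of_nonneg_left (hclose i) (norm_nonneg _)
        _ = (∑ i, ‖b.repr w i‖) * (1 / (2 * (C + 1))) := by rw [Finset.sum_mul]
        _ ≤ _ := mul_le_mul_of_nonneg_right (hb w) (by positivity)
    have h5 : C * ‖j w‖ * (1 / (2 * (C + 1))) ≤ ‖j w‖ / 2 := by
      rw [mul_one_div, div_le_iff₀ (by positivity)]
      nlinarith [norm_nonneg (j w), mul_nonneg hC (norm_nonneg (j w))]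
    have h6 : ‖j w‖ = 0 := le_antisymm (by linarith) (norm_nonneg _)
    have h7 : j w = j 0 := by rw [map_zero]; exact norm_eq_zero.1 h6
    exact Subtype.ext (hj h7)
  obtain ⟨w, hw⟩ := (LinearMap.injective_iff_surjective.1 hinj) ⟨h, hh⟩
  exact ⟨w, w.2, congrArg Subtype.val hw⟩

theorem onto_of_close' (j : V →ₗ[ℂ] E) (hj : Function.Injective j) (W : Submodule ℂ V)
    [FiniteDimensional ℂ W] :
    ∃ (n : ℕ) (b : Fin n → V) (η : ℝ), (∀ i, b i ∈ W) ∧ 0 < η ∧
      ∀ T : V →ₗ[ℂ] V, (∀ w ∈ W, T w ∈ W) → (∀ i, ‖j (T (b i)) - j (b i)‖ ≤ η) →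
      ∀ h ∈ W, ∃ h' ∈ W, T h' = h := by
  obtain ⟨η, hη, h⟩ := onto_of_close j hj W
  exact ⟨_, fun i => Module.finBasis ℂ W i, η, fun i => (Module.finBasis ℂ W i).2, hη, h⟩

/-- Riesz representation on a finite dimensional subspace for a positive definite
sesquilinear pairing -/
theorem exists_represent (B : V →ₗ⋆[ℂ] V →ₗ[ℂ] ℂ) (hB : ∀ f, B f f = 0 → f = 0)
    (F : Submodule ℂ V) [FiniteDimensional ℂ F] (l : V →ₗ[ℂ] ℂ) :
    ∃ h ∈ F, ∀ g ∈ F, B h g = l g := by
  let D : F →ₗ⋆[ℂ] Module.Dual ℂ F :=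
    { toFun := fun h => (B h) ∘ₗ F.subtype
      map_add' := fun x y => by
        ext g
        simp
      map_smul' := fun c x => by
        ext g
        simp }
  have hD : LinearMap.range D = ⊤ := by
    have h1 : (LinearMap.range D).dualCoannihilator = ⊥ := by
      rw [eq_bot_iff]
      intro g hg
      rw [Submodule.mem_dualCoannihilator] at hg
      have h2 := hg (D g) ⟨g, rfl⟩
      have h3 : B (g : V) (g : V) = 0 := h2
      have h4 := hB _ h3
      rw [Submodule.mem_bot]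
      exact Subtype.ext h4
    have h5 := Subspace.dualCoannihilator_dualAnnihilator_eq (W := LinearMap.range D)
    rw [h1, Submodule.dualAnnihilator_bot] at h5
    exact h5.symm
  obtain ⟨h, hh⟩ := (LinearMap.range_eq_top.1 hD) (l ∘ₗ F.subtype)
  exact ⟨h, h.2, fun g hg => LinearMap.congr_fun hh ⟨g, hg⟩⟩

end Pool.Agent.Helper33.SG
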