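import Mathlib
import Pool.Agent.Helper38.SG.Avg1
import Pool.Agent.Helper33.SG.Avg2Aux
import Pool.Agent.Helper38.SG.Avg0

/-! # Sobolev gap, pieces AVG-A and AVG-B: duality for `K`-continuous norms -/

open Filter Topology Set MeasureTheory
open scoped RealInnerProductSpace ContDiff

universe u

namespace Pool.Agent.Helper33.SG

open Pool.Agent.Helper38.SG

variable {G 𝔤 : Type u} [Group G] [TopologicalSpace G] [IsTopologicalGroup G] [T2Space G]
  [NormedAddCommGroup 𝔤] [InnerProductSpace ℝ 𝔤] [FiniteDimensional ℝ 𝔤] {P : ParData G 𝔤}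
  {U : Type u} [NormedAddCommGroup U] [InnerProductSpace ℂ U] [FiniteDimensional ℂ U]
  {R : RepData P U}
  [MeasurableSpace P.K] [BorelSpace P.K] (μ : Measure P.K) [IsProbabilityMeasure μ]
  [μ.IsMulLeftInvariant] [μ.IsMulRightInvariant] [μ.IsInvInvariant] [μ.IsOpenPosMeasure]
  {E : Type u} [NormedAddCommGroup E] [NormedSpace ℂ E] [CompleteSpace E]
  (j : V R →ₗ[ℂ] E) (hj : Function.Injective j) {C₀ : ℝ}
  (hC : ∀ k f, ‖j (kact R k f)‖ ≤ C₀ * ‖j f‖)

section aux

include hC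

theorem Avg2.bound_nonneg (f : V R) : 0 ≤ C₀ * ‖j f‖ := (norm_nonneg _).trans (hC 1 f)

theorem Avg2.one_kact (f : V R) : kact R (1 : P.K) f = f := by
  rw [map_one]
  rfl

theorem Avg2.norm_avg_le {φ : P.K → ℝ} (hφ : Kernel μ φ) (f : V R)
    (_hcont : Continuous fun k : P.K => j (kact R k f)) :
    ‖∫ k : P.K, φ k • j (kact R k f) ∂μ‖ ≤ C₀ * ‖j f‖ := by
  have hint : Integrable φ μ := by
    by_contra h
    have := hφ.int_one
    rw [integral_undef h] at this
    exact zero_ne_one this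
  calc ‖∫ k : P.K, φ k • j (kact R k f) ∂μ‖ ≤ ∫ k : P.K, φ k * (C₀ * ‖j f‖) ∂μ := by
        refine norm_integral_le_of_norm_le (hint.mul_const _) (Eventually.of_forall fun k => ?_)
        rw [norm_smul, Real.norm_eq_abs, abs_of_nonneg (hφ.nonneg k)]
        exact mul_le_mul_of_nonneg_left (hC k f) (hφ.nonneg k)
    _ = C₀ * ‖j f‖ := by rw [integral_mul_const, hφ.int_one, one_mul]

theorem Avg2.norm_avg_sub_le {φ : P.K → ℝ} (hφ : Kernel μ φ) (f : V R)
    (hcont : Continuous fun k : P.K => j (kact R k f)) {O : Set P.K} (hO : IsOpen O) {δ : ℝ}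
    (hδ : 0 ≤ δ) (hOδ : ∀ k ∈ O, ‖j (kact R k f) - j f‖ ≤ δ) {ε : ℝ}
    (hε : ∫ k in Oᶜ, φ k ∂μ ≤ ε) :
    ‖(∫ k : P.K, φ k • j (kact R k f) ∂μ) - j f‖ ≤ δ + (C₀ * ‖j f‖ + ‖j f‖) * ε := by
  have hint : Integrable φ μ := by
    by_contra h
    have := hφ.int_one
    rw [integral_undef h] at this
    exact zero_ne_one this
  have hb : ∀ k : P.K, ‖j (kact R k f) - j f‖ ≤ C₀ * ‖j f‖ + ‖j f‖ := fun k =>
    (norm_sub_le _ _).trans (add_le_add_left (hC k f) _)
  have hB0 : 0 ≤ C₀ * ‖j f‖ + ‖j f‖ := (norm_nonneg _).trans (hb 1)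
  have hI1 : Integrable (fun k : P.K => φ k • j (kact R k f)) μ := by
    exact (hφ.cont.smul hcont).integrable_of_hasCompactSupport
      (HasCompactSupport.of_compactSpace _)
  have hI2 : Integrable (fun k : P.K => φ k • j f) μ := hint.smul_const _
  have h1 : (∫ k : P.K, φ k • j (kact R k f) ∂μ) - j f =
      ∫ k : P.K, φ k • (j (kact R k f) - j f) ∂μ := by
    simp only [smul_sub]
    rw [integral_sub hI1 hI2, integral_smul_const, hφ.int_one, one_smul]
  have hmeas : MeasurableSet O := hO.measurableSet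
  have hg : Integrable (fun k : P.K => φ k * ‖j (kact R k f) - j f‖) μ := by
    have := (hI1.sub hI2).norm
    refine this.congr (Eventually.of_forall fun k => ?_)
    simp only [Pi.sub_apply]
    rw [← smul_sub, norm_smul, Real.norm_eq_abs, abs_of_nonneg (hφ.nonneg k)]
  calc ‖(∫ k : P.K, φ k • j (kact R k f) ∂μ) - j f‖
      ≤ ∫ k : P.K, φ k * ‖j (kact R k f) - j f‖ ∂μ := by
        rw [h1]
        refine norm_integral_le_of_norm_le hg (Eventually.of_forall fun k => ?_)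
        rw [norm_smul, Real.norm_eq_abs, abs_of_nonneg (hφ.nonneg k)]
    _ = (∫ k in O, φ k * ‖j (kact R k f) - j f‖ ∂μ) +
        ∫ k in Oᶜ, φ k * ‖j (kact R k f) - j f‖ ∂μ := (integral_add_compl hmeas hg).symm
    _ ≤ (∫ k in O, φ k * δ ∂μ) + ∫ k in Oᶜ, φ k * (C₀ * ‖j f‖ + ‖j f‖) ∂μ := by
        refine add_le_add ?_ ?_
        · exact setIntegral_mono_on hg.integrableOn (hint.mul_const _).integrableOn hmeas
            fun k hk => mul_le_mul_of_nonneg_left (hOδ k hk) (hφ.nonneg k)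
        · exact setIntegral_mono_on hg.integrableOn (hint.mul_const _).integrableOn hmeas.compl
            fun k _ => mul_le_mul_of_nonneg_left (hb k) (hφ.nonneg k)
    _ ≤ δ + (C₀ * ‖j f‖ + ‖j f‖) * ε := by
        rw [integral_mul_const, integral_mul_const]
        refine add_le_add ?_ ?_
        · have h2 : ∫ k in O, φ k ∂μ ≤ 1 := by
            rw [← hφ.int_one]
            exact setIntegral_le_integral hint (Eventually.of_forall hφ.nonneg)
          calc (∫ k in O, φ k ∂μ) * δ ≤ 1 * δ := mul_le_mul_of_nonneg_right h2 hδ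
            _ = δ := one_mul _
        · rw [mul_comm]
          exact mul_le_mul_of_nonneg_left hε hB0

end aux

include μ in
/-- there are kernels at all, hence the orbit maps are continuous -/
theorem Avg2.orbit_continuous (f : V R) : Continuous fun k : P.K => j (kact R k f) := by
  obtain ⟨φ, hφ, -⟩ := exists_kernel (R := R) μ ⊥ (fun k w hw => by
    rw [Submodule.mem_bot] at hw ⊢
    rw [hw, map_zero]) isOpen_univ (fun k _ => mem_univ k) one_pos
  obtain ⟨T, -, h, -⟩ := exists_avg (R := R) μ hφ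
  exact (h E j f).1

include hj hC

/-- AVG-A -/
theorem pair_le (h : V R) :
    ∃ C : ℝ, 0 ≤ C ∧ ∀ f : V R, ‖pair μ (h : G → U) (f : G → U)‖ ≤ C * ‖j f‖ := by
  obtain ⟨W, hWfin, hhW, hWK⟩ := exists_finite_stable (R := R) h
  obtain ⟨n, b, η, hbW, hη, hclose⟩ := onto_of_close' j hj W
  set M : ℝ := ∑ i, (C₀ * ‖j (b i)‖ + ‖j (b i)‖) with hM
  have hterm : ∀ i, 0 ≤ C₀ * ‖j (b i)‖ + ‖j (b i)‖ := fun i =>
    add_nonneg (Avg2.bound_nonneg j hC _) (norm_nonneg _)
  have hM0 : 0 ≤ M := Finset.sum_nonneg fun i _ => hterm i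
  have hMi : ∀ i, C₀ * ‖j (b i)‖ + ‖j (b i)‖ ≤ M := fun i =>
    Finset.single_le_sum (f := fun i => C₀ * ‖j (b i)‖ + ‖j (b i)‖) (fun i _ => hterm i)
      (Finset.mem_univ i)
  let O : Set P.K := ⋂ i, {k | ‖j (kact R k (b i)) - j (b i)‖ < η / 2}
  have hO : IsOpen O := by
    refine isOpen_iInter_of_finite fun i => ?_
    exact isOpen_lt (((Avg2.orbit_continuous μ j (b i)).sub continuous_const).norm)
      continuous_const
  have hWO : ∀ k : P.K, (∀ w ∈ W, kact R k w = w) → k ∈ O := by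
    intro k hk
    refine mem_iInter.2 fun i => ?_
    simp only [mem_setOf_eq]
    rw [hk _ (hbW i), sub_self, norm_zero]
    positivity
  obtain ⟨φ, hφ, hφO⟩ := exists_kernel (R := R) μ W hWK hO hWO
    (ε := η / (2 * (M + 1))) (by positivity)
  obtain ⟨T, -, hTj, hTsym, hTfin, hTW⟩ := exists_avg (R := R) μ hφ
  have hTc : ∀ i, ‖j (T (b i)) - j (b i)‖ ≤ η := by
    intro i
    rw [(hTj E j (b i)).2]
    refine (Avg2.norm_avg_sub_le μ j hC hφ (b i) (hTj E j (b i)).1 hO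
      (by positivity : (0 : ℝ) ≤ η / 2) (fun k hk => ?_) hφO).trans ?_
    · exact le_of_lt (mem_iInter.1 hk i)
    · have h1 : (C₀ * ‖j (b i)‖ + ‖j (b i)‖) * (η / (2 * (M + 1))) ≤ η / 2 := by
        calc (C₀ * ‖j (b i)‖ + ‖j (b i)‖) * (η / (2 * (M + 1)))
            ≤ (M + 1) * (η / (2 * (M + 1))) :=
              mul_le_mul_of_nonneg_right ((hMi i).trans (by linarith)) (by positivity)
          _ = η / 2 := by field_simp
      linarith
  obtain ⟨h', hh'W, hh'⟩ := hclose T (hTW W hWfin hWK) hTc h hhW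
  obtain ⟨B, hB⟩ := exists_pairV (R := R) μ
  haveI := hTfin
  obtain ⟨C, hC0, hCb⟩ := functional_bound j hj (LinearMap.range T) (B h')
  refine ⟨C * |C₀|, by positivity, fun f => ?_⟩
  have h1 : pair μ (h : G → U) (f : G → U) = B h' (T f) := by
    rw [← hh', hTsym, hB]
  calc ‖pair μ (h : G → U) (f : G → U)‖ = ‖B h' (T f)‖ := by rw [h1]
    _ ≤ C * ‖j (T f)‖ := hCb _ ⟨f, rfl⟩
    _ ≤ C * (C₀ * ‖j f‖) := by
        refine mul_le_mul_of_nonneg_left ?_ hC0
        rw [(hTj E j f).2]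
        exact Avg2.norm_avg_le μ j hC hφ f (hTj E j f).1
    _ ≤ C * (|C₀| * ‖j f‖) := by
        refine mul_le_mul_of_nonneg_left ?_ hC0
        exact mul_le_mul_of_nonneg_right (le_abs_self _) (norm_nonneg _)
    _ = C * |C₀| * ‖j f‖ := by ring

/-- AVG-B -/
theorem exists_dual (w : V R) {ε : ℝ} (hε : 0 < ε) :
    ∃ h : V R, (∀ f : V R, ‖pair μ (h : G → U) (f : G → U)‖ ≤ C₀ * ‖j f‖) ∧
      ‖j w‖ ≤ ‖pair μ (h : G → U) (w : G → U)‖ + ε := by
  obtain ⟨B, hB⟩ := exists_pairV (R := R) μ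
  obtain ⟨W, hWfin, hwW, hWK⟩ := exists_finite_stable (R := R) w
  let O : Set P.K := {k | ‖j (kact R k w) - j w‖ < ε / 2}
  have hO : IsOpen O :=
    isOpen_lt (((Avg2.orbit_continuous μ j w).sub continuous_const).norm) continuous_const
  have hWO : ∀ k : P.K, (∀ x ∈ W, kact R k x = x) → k ∈ O := by
    intro k hk
    simp only [O, mem_setOf_eq]
    rw [hk w hwW, sub_self, norm_zero]
    positivity
  have hM0 : 0 ≤ C₀ * ‖j w‖ + ‖j w‖ := add_nonneg (Avg2.bound_nonneg j hC _) (norm_nonneg _)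
  set M : ℝ := C₀ * ‖j w‖ + ‖j w‖ with hM
  obtain ⟨φ, hφ, hφO⟩ := exists_kernel (R := R) μ W hWK hO hWO
    (ε := ε / (2 * (M + 1))) (by positivity)
  obtain ⟨T, -, hTj, hTsym, hTfin, hTW⟩ := exists_avg (R := R) μ hφ
  have hTc : ‖j (T w) - j w‖ ≤ ε := by
    rw [(hTj E j w).2]
    refine (Avg2.norm_avg_sub_le μ j hC hφ w (hTj E j w).1 hO
      (by positivity : (0 : ℝ) ≤ ε / 2) (fun k hk => le_of_lt hk) hφO).trans ?_
    have h1 : (C₀ * ‖j w‖ + ‖j w‖) * (ε / (2 * (M + 1))) ≤ ε / 2 := by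
      calc (C₀ * ‖j w‖ + ‖j w‖) * (ε / (2 * (M + 1)))
          ≤ (M + 1) * (ε / (2 * (M + 1))) :=
            mul_le_mul_of_nonneg_right (by linarith) (by positivity)
        _ = ε / 2 := by field_simp
    linarith
  obtain ⟨L, hL1, hLw⟩ := exists_dual_vector'' ℂ (j w)
  haveI := hTfin
  obtain ⟨h, -, hh⟩ := exists_represent B
    (fun f hf => pair_self_eq_zero (R := R) μ (by rw [← hB]; exact hf)) (LinearMap.range T)
    ((L : E →ₗ[ℂ] ℂ) ∘ₗ j)
  have key : ∀ f : V R, pair μ (T h : G → U) (f : G → U) = L (j (T f)) := by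
    intro f
    rw [hTsym, ← hB]
    exact hh (T f) ⟨f, rfl⟩
  have hLle : ∀ x : E, ‖L x‖ ≤ ‖x‖ := fun x =>
    (L.le_opNorm x).trans (by
      calc ‖L‖ * ‖x‖ ≤ 1 * ‖x‖ := mul_le_mul_of_nonneg_right hL1 (norm_nonneg _)
        _ = ‖x‖ := one_mul _)
  refine ⟨T h, fun f => ?_, ?_⟩
  · rw [key]
    refine (hLle _).trans ?_
    rw [(hTj E j f).2]
    exact Avg2.norm_avg_le μ j hC hφ f (hTj E j f).1
  · rw [key]
    have h1 : ‖j w‖ = ‖L (j w)‖ := by
      rw [hLw]
      simp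
    have h2 : L (j w) = L (j (T w)) - L (j (T w) - j w) := by
      rw [map_sub, sub_sub_cancel]
    calc ‖j w‖ = ‖L (j (T w)) - L (j (T w) - j w)‖ := by rw [h1, h2]
      _ ≤ ‖L (j (T w))‖ + ‖L (j (T w) - j w)‖ := norm_sub_le _ _
      _ ≤ ‖L (j (T w))‖ + ε := by
          have := (hLle (j (T w) - j w)).trans hTc
          linarith

end Pool.Agent.Helper33.SG
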